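import Mathlib

/-!
# Grothendieck's period conjecture for divisor classes, and traces on curves

Varieties are smooth and projective over the field of algebraic numbers; divisors and correspondences
have rational coefficients.  A class `γ` in `H^2(X, ℚ)` is a Grothendieck class if `2πi γ` comes from
a class in the algebraic de Rham cohomology of `X`; by the conjecture (`GPC X`) all Grothendieck
classes are algebraic, that is, classes of divisors.

**Theorem.** Let `C` be a curve, `a_k` self-correspondences of `X` of degree zero and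
`b_k` self-correspondences of `C`.  Let `∑ a_k × b_k` act on `H^2(X) ⊗ H^1(C)` as a sum of compositions
`X × C → W → X × C` of correspondences of degree zero, where `W` is a surface, and
`X × C → D → X × C` of correspondences of degrees `-1` and `1`, where `D` is any variety.
Then `∑ tr(b_k | H^1(C)) a_k` maps Grothendieck classes to algebraic classes.

For instance, let a finite group `G` act on `X` and on `C`, and let `L = ∑ tr(g | H^1(C)) g`, an element of the
group algebra which acts on `X`; if `C` is connected then `tr(g | H^1(C)) = 2 - l(g)` for the number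
`l(g)` of the fixed points of `g ≠ 1`.  The hypothesis for the elements of `G` is true if the zero-cycles of
`(X × C) / G` over `ℂ` are supported on a surface, for example if `(X × C) / G` is a uniruled threefold:
then, by the theorem of Bloch and Srinivas, the sum `N` of the elements of `G` on `X × C` is
`q + f g`, where `q` factors through surfaces and `g`, `f`, of degree zero, through a divisor `D`;
and `N` is its own transpose, and the transposes of `f`, `g` have the degrees `-1` and `1`.
If `X` is a surface, the hypothesis says only that the part `(H^2(X) ⊗ H^1(C))^G` of `H^3(X × C)` is supported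
on a divisor, which should be so whenever `(H^{2,0}(X) ⊗ H^{1,0}(C))^G = 0`.

The second part of the theorem deduces the conjecture for `X` if sufficiently many self-correspondences of `X`
are sums of compositions through such partial traces and through varieties `Y` for which the conjecture is true.

**Proof.** Let `γ` be a Grothendieck class.  Then `c ↦ γ × c` is a map from `H^1(C)` to `H^3(X × C)(1)` which
respects the rational and the de Rham structure.  A correspondence `X × C → D` of degree `-1` makes it a map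
`H^1(C) → H^1(D)`, and a correspondence `X × C → W` a map `H^1(C) → H^3(W)(1)`, and `H^3(W)` is dual to
`H^1(W)`.  These maps are algebraic, by the known case of the conjecture, for abelian varieties (Bost,
after Wüstholz).  So the map `c ↦ ∑ a_k γ × b_k c` is algebraic: it is given by a cycle on `C × X × C`.  One
restricts it to the diagonal of `C` and takes the direct image on `X`, which is `-∑ tr(b_k | H^1(C)) a_k γ`.

**Examples** (these geometric facts are not formalised).  Let `m ≥ 3`, `k = [m / 2]`, `G = μ_m`, and let `C` be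
the curve `t^m = u (1 - u)`.  If `m` is odd then `l(g) = 3` for `g ≠ 1` and the genus of `C` is `(m - 1) / 2`, so
`L = m - N`, where `N` is the sum of the elements of `G`; if `m` is even then `L = m - 2 N_K`, where `K` is the
subgroup of index two.  So in the following examples the conjecture is true for `X` if and only if it is
true for `X / G`, which is a rational surface, respectively for `X / K`.
 (i) Let `X` be a resolution of `z^m = f(x, y, w)`, quasi-smooth in the weighted projective space
     `ℙ(l, a, b, c)`, where `f` has degree `m l`, and `(m - 1 - k) l < a + b + c`.  With `Z = z / t` and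
     `V = Z^k (u - 1/2)` the threefold `(X × C) / G` is birational to
     `f = Z^m / 4 - Z^(m - 2k) V^2` in `ℙ(a, b, c, l, k l)`, a log Fano variety.  So the conjecture is true for
     `z^3 = f_6` (`p_g = 3`, 19 moduli) and `z^5 = f_5` (`p_g = 4`, 12 moduli) over the plane,
     for `z^11 = f_11` in `ℙ(1, 1, 2, 3)` (`p_g = 11`) and for `z^15 = f_15` in `ℙ(1, 1, 2, 5)` (`p_g = 18`).
 (ii) For even `m` the surface `X / K` is the double plane `z^2 = f`.  If `k l = a + b + c` it is a K3
     surface, for which the conjecture is a theorem of Bost and Charles.  So for every K3 surface `z^2 = f` in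
     `ℙ(s, a, b, c)`, `s = a + b + c`, and every `k` which divides `s` the conjecture is true for
     `z^(2 k) = f`; for instance for all smooth surfaces `z^6 = f_6` of degree six (`p_g = 10`, 19 moduli), and
     for `z^12 = f_12` in `ℙ(1, 1, 1, 4)` (`p_g = 24`, 18 moduli).
 (iii) The surfaces `z^m = F / Q^2`, where `F`, `Q` are forms of degrees 4 and 2 on the plane, for every `m`;
     `p_g = 3 [(m - 1) / 2]`, 11 moduli.  Here `(X × C) / G` is fibred over the `Z`-line by the double
     planes branched along the quartics `4 F = Z^m Q^2`.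
-/

set_option autoImplicit false

namespace Pool.Agent.Results.MP_c3fc99_ag.CurveTrace

open CategoryTheory TensorProduct

universe u v

/-- The period of the class of a point of the projective line. -/
noncomputable def per : ℂ := 2 * Real.pi * Complex.I

/-- Correspondences of smooth projective varieties over the algebraic numbers.

The objects of `V` are the smooth projective equidimensional varieties, not necessarily
connected, `X ⟶ Y` is the group `CH^*(X × Y) ⊗ ℚ`, composed as correspondences in diagrammatic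
order; `pt` is the point and `prod X Y` the product of two varieties. -/
structure Corr {V : Type u} [Category.{v} V] [Preadditive V] [Linear ℚ V] (pt : V)
    (prod : V → V → V) where
  /-- dimension -/
  dim : V → ℕ
  /-- `deg X Y r = CH^(dim X + r)(X × Y) ⊗ ℚ` consists of the correspondences of degree `r`; so
  `deg pt X i = CH^i(X) ⊗ ℚ` -/
  deg : (X Y : V) → ℤ → Submodule ℚ (X ⟶ Y)
  comp_mem : ∀ {X Y Z : V} {r s : ℤ} {f : X ⟶ Y} {g : Y ⟶ Z},
    f ∈ deg X Y r → g ∈ deg Y Z s → f ≫ g ∈ deg X Z (r + s)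

variable {V : Type u} [Category.{v} V] [Preadditive V] [Linear ℚ V] {pt : V}
  {prod : V → V → V}

/-- The rational singular cohomology `coh X = H^*(X, ℚ)`, a functor on correspondences. -/
structure Betti (T : Corr pt prod) (coh : V ⥤ ModuleCat.{0} ℚ) where
  additive : coh.Additive
  linear : coh.Linear ℚ
  fin : ∀ X, FiniteDimensional ℚ (coh.obj X)
  /-- `H^j(X, ℚ)` -/
  gr : (X : V) → ℤ → Submodule ℚ (coh.obj X)
  internal : ∀ X, DirectSum.IsInternal (gr X)
  /-- a correspondence of degree `r` maps `H^j` to `H^(j + 2r)` -/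
  map_mem : ∀ {X Y : V} {r j : ℤ} {f : X ⟶ Y} {x : coh.obj X}, f ∈ T.deg X Y r → x ∈ gr X j →
    (coh.map f).hom x ∈ gr Y (j + 2 * r)
  /-- the generator `1` of `H^0(pt)` -/
  one : coh.obj pt
  /-- the exterior product of cohomology classes -/
  cross : (X Y : V) → coh.obj X →ₗ[ℚ] coh.obj Y →ₗ[ℚ] coh.obj (prod X Y)
  cross_mem : ∀ {X Y : V} {i j : ℤ} {x : coh.obj X} {y : coh.obj Y}, x ∈ gr X i → y ∈ gr Y j →
    cross X Y x y ∈ gr (prod X Y) (i + j)

/-- the action of a correspondence on singular cohomology -/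
def push (coh : V ⥤ ModuleCat.{0} ℚ) {X Y : V} (f : X ⟶ Y) : coh.obj X →ₗ[ℚ] coh.obj Y :=
  (coh.map f).hom

variable {T : Corr pt prod} {coh : V ⥤ ModuleCat.{0} ℚ}

/-- Algebraic de Rham cohomology: `dR X` is the image of `H_dR^*(X)` in `H^*(X, ℂ)`. -/
structure DeRham (B : Betti T coh) where
  /-- the classes in `H^*(X, ℂ)` which come from the algebraic de Rham cohomology of `X` -/
  dR : (X : V) → Submodule ℚ (ℂ ⊗[ℚ] coh.obj X)
  smul : ∀ {X : V} {c : ℂ} {α : ℂ ⊗[ℚ] coh.obj X}, IsAlgebraic ℚ c → α ∈ dR X → c • α ∈ dR X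
  /-- on de Rham cohomology, the action of a correspondence of degree `r` is `(2πi)^r` times the
  action on singular cohomology -/
  map : ∀ {X Y : V} {r : ℤ} {f : X ⟶ Y}, f ∈ T.deg X Y r → ∀ α ∈ dR X,
    per ^ r • (push coh f).baseChange ℂ α ∈ dR Y
  /-- exterior products of de Rham classes are de Rham classes -/
  cross : ∀ {X Y : V} (s : ℂ) (x : coh.obj X), s ⊗ₜ x ∈ dR X → ∀ η ∈ dR Y,
    s • (B.cross X Y x).baseChange ℂ η ∈ dR (prod X Y)

/-- the linear map `θ` is zero outside of `H^1(C)` -/
def OnH1 (B : Betti T coh) {C D : V} (θ : coh.obj C →ₗ[ℚ] coh.obj D) : Prop :=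
  ∀ j : ℤ, j ≠ 1 → ∀ x ∈ B.gr C j, θ x = 0

/-- The projector to `H^1` of a curve, and the contraction over a curve. -/
structure Curves (B : Betti T coh) where
  /-- the projector to `H^1(C)` -/
  π₁ : (C : V) → (C ⟶ C)
  π₁_mem : ∀ C : V, T.dim C = 1 → π₁ C ∈ T.deg C C 0
  π₁_gr : ∀ C : V, T.dim C = 1 → ∀ x, push coh (π₁ C) x ∈ B.gr C 1
  π₁_one : ∀ C : V, T.dim C = 1 → ∀ x ∈ B.gr C 1, push coh (π₁ C) x = x
  π₁_ne : ∀ C : V, T.dim C = 1 → OnH1 B (push coh (π₁ C))
  /-- the inverse image of a cycle on `C × X × C` on `X × C`, under the diagonal of `C`, and then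
  its direct image on `X` -/
  contract : (X C : V) → (C ⟶ prod X C) → (pt ⟶ X)
  contract_mem : ∀ {X C : V} {r : ℤ} {f : C ⟶ prod X C}, f ∈ T.deg C (prod X C) r →
    contract X C f ∈ T.deg pt X r
  /-- the trace formula: if `f` acts on `H^*(C)` as the sum of the maps `c ↦ a_k × θ_k(c)`, where
  `a_k` is in `H^2(X)` and `θ_k = 0` outside of `H^1(C)`, then the class of `contract f` is
  `-∑ tr(θ_k) a_k` -/
  contract_trace : ∀ {X C : V} (f : C ⟶ prod X C) (n : ℕ) (a : Fin n → coh.obj X)
    (θ : Fin n → (coh.obj C →ₗ[ℚ] coh.obj C)), (∀ k, a k ∈ B.gr X 2) → (∀ k, OnH1 B (θ k)) →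
    (∀ c, push coh f c = ∑ k, B.cross X C (a k) (θ k c)) →
    push coh (contract X C f) B.one = -∑ k, LinearMap.trace ℚ _ (θ k) • a k

/-- `ψ` is a morphism of de Rham-Betti structures from `H^1(C)` to `H^m(D)(r)`, extended by zero:
`(2πi)^r ψ` maps de Rham classes to de Rham classes. -/
def IsMorphism {B : Betti T coh} (R : DeRham B) (C D : V) (m r : ℤ)
    (ψ : coh.obj C →ₗ[ℚ] coh.obj D) : Prop :=
  (∀ x ∈ B.gr C 1, ψ x ∈ B.gr D m) ∧ OnH1 B ψ ∧ ∀ η ∈ R.dR C, per ^ r • ψ.baseChange ℂ η ∈ R.dR D

/-- The known case of the conjecture, for abelian varieties: if `C` is a curve, then morphisms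
of de Rham-Betti structures `H^1(C) → H^1(D)` are induced by divisors on `C × D`; and if the
dimension of `W` is at most two, then morphisms from `H^1(C)` to `H^3(W)(1)`, which for surfaces is
dual to `H^1(W)`, are induced by cycles on `C × W`. -/
structure AbelianCase {B : Betti T coh} (R : DeRham B) : Prop where
  one : ∀ {C D : V}, T.dim C = 1 → ∀ ψ, IsMorphism R C D 1 0 ψ →
    ∃ f ∈ T.deg C D 0, push coh f = ψ
  three : ∀ {C W : V}, T.dim C = 1 → T.dim W ≤ 2 → ∀ ψ, IsMorphism R C W 3 1 ψ →
    ∃ f ∈ T.deg C W 1, push coh f = ψ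

variable {B : Betti T coh} (R : DeRham B) (K : Curves B)

/-- The Grothendieck classes in `H^2(X, ℚ)`: the classes `γ` such that `2πi γ` comes from the
algebraic de Rham cohomology. -/
def Gr (X : V) : Set (coh.obj X) := {γ | γ ∈ B.gr X 2 ∧ per ⊗ₜ γ ∈ R.dR X}

/-- The classes of divisors. -/
def Alg (B : Betti T coh) (X : V) : Set (coh.obj X) :=
  {γ | ∃ z ∈ T.deg pt X 1, push coh z B.one = γ}

/-- The conjecture for `X`: all Grothendieck classes are algebraic. -/
def GPC (X : V) : Prop := Gr R X ⊆ Alg B X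

/-- The correspondences of degree zero from `Y` to `Y'` which factor through the cohomology of
smaller varieties: linear combinations of compositions
`Y → D → Y'` of correspondences of degrees `-1` and `1`, `D` any variety, and
`Y → W → Y'` of correspondences of degree `0`, `W` a variety of dimension at most two. -/
def small (T : Corr pt prod) (Y Y' : V) : Submodule ℚ (Y ⟶ Y') :=
  Submodule.span ℚ ({f | ∃ (D : V) (g : Y ⟶ D) (h : D ⟶ Y'), g ∈ T.deg Y D (-1) ∧
      h ∈ T.deg D Y' 1 ∧ f = g ≫ h} ∪
    {f | ∃ (W : V) (g : Y ⟶ W) (h : W ⟶ Y'), T.dim W ≤ 2 ∧ g ∈ T.deg Y W 0 ∧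
      h ∈ T.deg W Y' 0 ∧ f = g ≫ h})

/-- The trace of the correspondence `b` on `H^1(C)`. -/
noncomputable def trace₁ {C : V} (b : C ⟶ C) : ℚ :=
  LinearMap.trace ℚ _ (push coh b ∘ₗ push coh (K.π₁ C))

/-- `f` is a partial trace: there are a curve `C` and correspondences `a k` from `X` to `X'`, of
degree zero, and `b k` from `C` to `C`, such that the sum of the `a k × b k` acts on
`H^2(X) ⊗ H^1(C)` as a small correspondence, and `f` is the sum of the `tr(b k | H^1(C)) (a k)`. -/
def IsTrace {X X' : V} (f : X ⟶ X') : Prop :=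
  ∃ (C : V) (n : ℕ) (a : Fin n → (X ⟶ X')) (b : Fin n → (C ⟶ C)), T.dim C = 1 ∧
    (∀ k, a k ∈ T.deg X X' 0) ∧
    (∃ N ∈ small T (prod X C) (prod X' C), ∀ x ∈ B.gr X 2, ∀ c ∈ B.gr C 1,
      ∑ k, B.cross X' C (push coh (a k) x) (push coh (b k) c) = push coh N (B.cross X C x c)) ∧
    f = ∑ k, trace₁ K (b k) • a k

theorem per_ne : per ≠ 0 := by
  unfold per
  exact mul_ne_zero (mul_ne_zero two_ne_zero (by exact_mod_cast Real.pi_ne_zero)) Complex.I_ne_zero

theorem push_comp {X Y Z : V} (f : X ⟶ Y) (g : Y ⟶ Z) :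
    push coh (f ≫ g) = push coh g ∘ₗ push coh f := by
  unfold push
  rw [coh.map_comp, ModuleCat.hom_comp]

section

variable (B)
include B

theorem push_add {X Y : V} (f g : X ⟶ Y) : push coh (f + g) = push coh f + push coh g := by
  have := B.additive
  unfold push
  rw [Functor.map_add, ModuleCat.hom_add]

theorem push_zero {X Y : V} : push coh (0 : X ⟶ Y) = 0 := by
  have := B.additive
  unfold push
  rw [Functor.map_zero, ModuleCat.hom_zero]

theorem push_smul {X Y : V} (c : ℚ) (f : X ⟶ Y) : push coh (c • f) = c • push coh f := by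
  have := B.additive
  have := B.linear
  unfold push
  rw [Functor.map_smul, ModuleCat.hom_smul]

theorem push_neg {X Y : V} (f : X ⟶ Y) : push coh (-f) = -push coh f := by
  have := B.additive
  unfold push
  rw [Functor.map_neg, ModuleCat.hom_neg]

theorem push_sum {X Y : V} {ι : Type} (s : Finset ι) (f : ι → (X ⟶ Y)) :
    push coh (∑ k ∈ s, f k) = ∑ k ∈ s, push coh (f k) := by
  classical
  induction s using Finset.induction_on with
  | empty => simp [push_zero B]
  | insert i s hi ih => rw [Finset.sum_insert hi, Finset.sum_insert hi, push_add B, ih]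

end

variable {R K}

/-- composition of a morphism with a correspondence -/
theorem IsMorphism.comp {C Y D : V} {m r : ℤ} {ψ : coh.obj C →ₗ[ℚ] coh.obj Y}
    (hψ : IsMorphism R C Y m r ψ) {s : ℤ} {g : Y ⟶ D} (hg : g ∈ T.deg Y D s) :
    IsMorphism R C D (m + 2 * s) (r + s) (push coh g ∘ₗ ψ) := by
  obtain ⟨h1, h2, h3⟩ := hψ
  refine ⟨fun x hx => B.map_mem hg (h1 x hx), fun j hj x hx => ?_, fun η hη => ?_⟩
  · rw [LinearMap.comp_apply, h2 j hj x hx, map_zero]
  · have h4 := R.map hg _ (h3 η hη)
    rw [map_smul, smul_smul, ← zpow_add₀ per_ne, add_comm s r] at h4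
    rw [LinearMap.baseChange_comp]
    exact h4

/-- the exterior product with a Grothendieck class is a morphism from `H^1(C)` to `H^3(X × C)(1)` -/
theorem isMorphism_cross (K : Curves B) {X C : V} (hC : T.dim C = 1) {γ : coh.obj X}
    (hγ : γ ∈ Gr R X) :
    IsMorphism R C (prod X C) 3 1 (B.cross X C γ ∘ₗ push coh (K.π₁ C)) := by
  obtain ⟨hγ2, hα⟩ := hγ
  refine ⟨fun x _ => B.cross_mem hγ2 (K.π₁_gr C hC x), fun j hj x hx => ?_, fun η hη => ?_⟩
  · rw [LinearMap.comp_apply, K.π₁_ne C hC j hj x hx, map_zero]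
  · have h4 := R.map (K.π₁_mem C hC) η hη
    rw [zpow_zero, one_smul] at h4
    have h5 := R.cross per γ hα _ h4
    rw [LinearMap.baseChange_comp, zpow_one]
    exact h5

/-- a small correspondence makes a morphism from `H^1(C)` to `H^3(Y)(1)` algebraic -/
theorem small_push (hA : AbelianCase R) {C Y Y' : V} (hC : T.dim C = 1)
    {φ : coh.obj C →ₗ[ℚ] coh.obj Y} (hφ : IsMorphism R C Y 3 1 φ) {N : Y ⟶ Y'}
    (hN : N ∈ small T Y Y') : ∃ F ∈ T.deg C Y' 1, push coh F = push coh N ∘ₗ φ := by
  refine Submodule.span_induction (p := fun N _ => ∃ F ∈ T.deg C Y' 1,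
    push coh F = push coh N ∘ₗ φ) ?_ ?_ ?_ ?_ hN
  · rintro f (⟨D, g, h, hg, hh, rfl⟩ | ⟨W, g, h, hW, hg, hh, rfl⟩)
    · obtain ⟨F, hF, hF'⟩ := hA.one hC _ (by simpa using hφ.comp hg)
      exact ⟨F ≫ h, by simpa using T.comp_mem hF hh, by rw [push_comp, push_comp, hF']; rfl⟩
    · obtain ⟨F, hF, hF'⟩ := hA.three hC hW _ (by simpa using hφ.comp hg)
      exact ⟨F ≫ h, by simpa using T.comp_mem hF hh, by rw [push_comp, push_comp, hF']; rfl⟩
  · exact ⟨0, Submodule.zero_mem _, by rw [push_zero B, push_zero B]; rfl⟩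
  · rintro f g - - ⟨F, hF, hF'⟩ ⟨G, hG, hG'⟩
    exact ⟨F + G, Submodule.add_mem _ hF hG, by
      rw [push_add B, push_add B, LinearMap.add_comp, hF', hG']⟩
  · rintro c f - ⟨F, hF, hF'⟩
    exact ⟨c • F, Submodule.smul_mem _ c hF, by
      rw [push_smul B, push_smul B, LinearMap.smul_comp, hF']⟩

/-- partial traces map Grothendieck classes to algebraic classes -/
theorem IsTrace.alg (hA : AbelianCase R) {X X' : V} {f : X ⟶ X'} (hf : IsTrace K f)
    {γ : coh.obj X} (hγ : γ ∈ Gr R X) : push coh f γ ∈ Alg B X' := by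
  obtain ⟨C, n, a, b, hC, ha, ⟨N, hN, hNx⟩, rfl⟩ := hf
  obtain ⟨F, hF, hF'⟩ := small_push hA hC (isMorphism_cross K hC hγ) hN
  have h1 := K.contract_trace F n (fun k => push coh (a k) γ)
    (fun k => push coh (b k) ∘ₗ push coh (K.π₁ C))
    (fun k => by
      have h2 := B.map_mem (ha k) hγ.1
      exact h2)
    (fun k j hj x hx => by
      rw [LinearMap.comp_apply, K.π₁_ne C hC j hj x hx, map_zero])
    (fun x => by
      rw [hF', LinearMap.comp_apply, LinearMap.comp_apply, ← hNx γ hγ.1 _ (K.π₁_gr C hC x)]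
      rfl)
  refine ⟨-K.contract X' C F, Submodule.neg_mem _ (K.contract_mem hF), ?_⟩
  rw [push_neg B, LinearMap.neg_apply, h1, neg_neg, push_sum B, LinearMap.sum_apply]
  refine Finset.sum_congr rfl fun k _ => ?_
  rw [push_smul B, LinearMap.smul_apply]
  rfl

theorem IsTrace.mem {X X' : V} {f : X ⟶ X'} (hf : IsTrace K f) : f ∈ T.deg X X' 0 := by
  obtain ⟨C, n, a, b, hC, ha, -, rfl⟩ := hf
  exact Submodule.sum_mem _ fun k _ => Submodule.smul_mem _ _ (ha k)

theorem Gr.map {X Y : V} {f : X ⟶ Y} (hf : f ∈ T.deg X Y 0) {γ : coh.obj X}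
    (hγ : γ ∈ Gr R X) : push coh f γ ∈ Gr R Y := by
  obtain ⟨hγ2, hα⟩ := hγ
  have h1 := R.map hf _ hα
  rw [zpow_zero, one_smul, LinearMap.baseChange_tmul] at h1
  have h2 := B.map_mem hf hγ2
  rw [mul_zero, add_zero] at h2
  exact ⟨h2, h1⟩

theorem Alg.map {X Y : V} {f : X ⟶ Y} (hf : f ∈ T.deg X Y 0) {γ : coh.obj X}
    (hγ : γ ∈ Alg B X) : push coh f γ ∈ Alg B Y := by
  obtain ⟨z, hz, rfl⟩ := hγ
  exact ⟨z ≫ f, by simpa using T.comp_mem hz hf, by rw [push_comp]; rfl⟩

theorem Alg.zero {X : V} : (0 : coh.obj X) ∈ Alg B X :=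
  ⟨0, Submodule.zero_mem _, by rw [push_zero B]; rfl⟩

theorem Alg.add {X : V} {γ δ : coh.obj X} (h1 : γ ∈ Alg B X) (h2 : δ ∈ Alg B X) :
    γ + δ ∈ Alg B X := by
  obtain ⟨z, hz, rfl⟩ := h1
  obtain ⟨w, hw, rfl⟩ := h2
  exact ⟨z + w, Submodule.add_mem _ hz hw, by rw [push_add B]; rfl⟩

/-- the Grothendieck classes form a subspace -/
noncomputable def grSub (R : DeRham B) (X : V) : Submodule ℚ (coh.obj X) where
  carrier := Gr R X
  zero_mem' := by
    refine ⟨Submodule.zero_mem _, ?_⟩
    rw [TensorProduct.tmul_zero]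
    exact Submodule.zero_mem _
  add_mem' := by
    rintro a b ⟨ha, hα⟩ ⟨hb, hβ⟩
    refine ⟨Submodule.add_mem _ ha hb, ?_⟩
    rw [TensorProduct.tmul_add]
    exact Submodule.add_mem _ hα hβ
  smul_mem' := by
    rintro c a ⟨ha, hα⟩
    refine ⟨Submodule.smul_mem _ c ha, ?_⟩
    rw [TensorProduct.tmul_smul]
    exact Submodule.smul_mem _ c hα

/-- a self-correspondence which maps Grothendieck classes to algebraic classes reduces the
conjecture to the classes killed by its powers -/
theorem gpc_of_map {X : V} {p : X ⟶ X} (hp : p ∈ T.deg X X 0)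
    (hpa : ∀ γ ∈ Gr R X, push coh p γ ∈ Alg B X)
    (h : ∀ γ ∈ Gr R X, ∀ m : ℕ, (push coh p ^ m) γ = 0 → γ ∈ Alg B X) : GPC R X := by
  have := B.fin X
  let M : Submodule ℚ (coh.obj X) := grSub R X
  have hM : ∀ x ∈ M, push coh p x ∈ M := fun x hx => Gr.map hp hx
  let f : Module.End ℚ M := (push coh p).restrict hM
  obtain ⟨n, hn⟩ := Filter.eventually_atTop.1
    (f.eventually_isCompl_ker_pow_range_pow)
  have hc := hn (n + 1) (Nat.le_succ n)
  have hpow : ∀ (m : ℕ) (x : M), (((f ^ m) x : M) : coh.obj X) =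
      (push coh p ^ m) (x : coh.obj X) := by
    intro m
    induction m with
    | zero => intro x; rfl
    | succ m ih =>
      intro x
      rw [pow_succ, Module.End.mul_apply, ih, pow_succ, Module.End.mul_apply]
      rfl
  intro γ hγ
  have hmem : (⟨γ, hγ⟩ : M) ∈ LinearMap.ker (f ^ (n + 1)) ⊔ LinearMap.range (f ^ (n + 1)) := by
    rw [hc.sup_eq_top]
    exact Submodule.mem_top
  obtain ⟨x, hx, y, hy, hxy⟩ := Submodule.mem_sup.1 hmem
  have hγ' : γ = (x : coh.obj X) + (y : coh.obj X) := by
    have := congrArg Subtype.val hxy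
    exact this.symm
  rw [hγ']
  refine Alg.add (h _ x.2 (n + 1) ?_) ?_
  · rw [← hpow, LinearMap.mem_ker.1 hx]
    rfl
  · obtain ⟨z, rfl⟩ := hy
    rw [hpow, pow_succ', Module.End.mul_apply, ← hpow]
    exact hpa _ ((f ^ n) z).2

theorem result {V : Type u} [Category.{v} V] [Preadditive V] [Linear ℚ V] {pt : V}
    {prod : V → V → V} {T : Corr pt prod} {coh : V ⥤ ModuleCat.{0} ℚ} {B : Betti T coh}
    (R : DeRham B) (K : Curves B) (hA : AbelianCase R) :
    -- partial traces map Grothendieck classes to algebraic classes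
    (∀ (X X' : V) (f : X ⟶ X'), IsTrace K f → ∀ γ ∈ Gr R X, push coh f γ ∈ Alg B X') ∧
    -- let `p` be a sum of self-correspondences of `X` which factor through partial traces or
    -- through varieties for which the conjecture is true
    ∀ (X : V) (n : ℕ) (Y Y' : Fin n → V) (u : ∀ i, X ⟶ Y i) (f : ∀ i, Y i ⟶ Y' i)
      (v : ∀ i, Y' i ⟶ X), (∀ i, u i ∈ T.deg X (Y i) 0) → (∀ i, v i ∈ T.deg (Y' i) X 0) →
      (∀ i, IsTrace K (f i) ∨ (f i ∈ T.deg (Y i) (Y' i) 0 ∧ GPC R (Y i))) →
      -- if all Grothendieck classes killed by a power of `p` are algebraic, all are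
      (∀ γ ∈ Gr R X, ∀ m : ℕ, (push coh (∑ i, u i ≫ f i ≫ v i) ^ m) γ = 0 → γ ∈ Alg B X) →
        GPC R X := by
  refine ⟨fun X X' f hf γ hγ => hf.alg hA hγ, fun X n Y Y' u f v hu hv hf h => ?_⟩
  refine gpc_of_map (Submodule.sum_mem _ fun i _ => ?_) (fun γ hγ => ?_) h
  · have h1 : f i ∈ T.deg (Y i) (Y' i) 0 := (hf i).elim IsTrace.mem And.left
    simpa using T.comp_mem (hu i) (T.comp_mem h1 (hv i))
  · rw [push_sum B, LinearMap.sum_apply]
    have h1 : ∀ s : Finset (Fin n), ∑ i ∈ s, push coh (u i ≫ f i ≫ v i) γ ∈ Alg B X := by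
      classical
      intro s
      induction s using Finset.induction_on with
      | empty => rw [Finset.sum_empty]; exact Alg.zero
      | insert i s hi ih =>
        rw [Finset.sum_insert hi]
        refine Alg.add ?_ ih
        rw [push_comp, push_comp]
        change push coh (v i) (push coh (f i) (push coh (u i) γ)) ∈ _
        refine Alg.map (hv i) ?_
        rcases hf i with h2 | ⟨h2, h3⟩
        · exact h2.alg hA (Gr.map (hu i) hγ)
        · exact Alg.map h2 (h3 (Gr.map (hu i) hγ))
    exact h1 Finset.univ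

end Pool.Agent.Results.MP_c3fc99_ag.CurveTrace
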